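import Pool.Agent.Q146.Sat4.Primes

/-!
# Triangle-free `C₄`-saturated graphs exist for every large number of vertices

Let `q` be an odd prime and `χ` the quadratic character of `𝔽_q`. The vertices are the pairs
`(x, s)`, `x, s ∈ 𝔽_q`, `χ(s) = -χ(-1)`, and `(x, s)`, `(a, t)` are adjacent if
`(x - a)² = s + t` (the graphs of Parsons, the external or internal points of a conic under
polarity). There are no triangles and no 4-cycles. Two different non-adjacent vertices are joined by
at least `q / 4 - (5 / 4) √q - 3` paths of length three with different inner vertices (Weil's bound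
for a character sum of degree four), so that the graph stays saturated when arbitrary vertices with
abscissa in a set of at most `q / 10` elements are deleted. The prime number theorem does the rest.
-/

set_option autoImplicit false

namespace Pool.Agent.Results.MP_02bc1b_co.TriangleFree

open Q146.Sat4

/-- `sat(n, H, F)`: the least number of copies of `H` in an `F`-saturated graph on `n` vertices. -/
noncomputable def sat (n : ℕ) {W W' : Type} (H : SimpleGraph W) (F : SimpleGraph W') : ℕ :=
  sInf {k | ∃ G : SimpleGraph (Fin n), IsSaturated F G ∧ G.copyCount H = k}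

/-- There is `n₀` such that for every `n ≥ n₀` some `C₄`-saturated graph on `n` vertices is
triangle-free. Hence `sat(n, K₃, C₄) > 0` holds only for finitely many `n`. -/
theorem result :
    (∃ n₀ : ℕ, ∀ n ≥ n₀, ∃ G : SimpleGraph (Fin n),
      IsSaturated (SimpleGraph.cycleGraph 4) G ∧ (⊤ : SimpleGraph (Fin 3)).Free G) ∧
    {n : ℕ | 0 < sat n (⊤ : SimpleGraph (Fin 3)) (SimpleGraph.cycleGraph 4)}.Finite := by
  refine ⟨main, ?_⟩
  obtain ⟨n₀, hn₀⟩ := main
  refine (Set.finite_lt_nat n₀).subset fun n hn => ?_
  by_contra hlt
  obtain ⟨G, h1, h2⟩ := hn₀ n (not_lt.1 hlt)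
  have h0 : sat n (⊤ : SimpleGraph (Fin 3)) (SimpleGraph.cycleGraph 4) = 0 := by
    unfold sat
    rw [Nat.sInf_eq_zero]
    left
    exact ⟨G, h1, SimpleGraph.copyCount_eq_zero.2 h2⟩
  exact absurd hn (by simp [h0])

end Pool.Agent.Results.MP_02bc1b_co.TriangleFree
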